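import Pool.Agent.Y287.GL.RydC

set_option autoImplicit false

/-! # Task RYD of project GD2: the ray integral, dual range -/

namespace Pool.Agent.Y287.GL

open Complex Filter Topology MeasureTheory Set
open scoped ComplexConjugate
open Pool.Agent.H24R2.DZ (ray)
open Pool.Agent.Y671.GL

theorem ray_re (δ x : ℝ) : (ray δ x).re = x * Real.sin δ := by
  unfold ray
  rw [Complex.re_ofReal_mul, Complex.exp_re]
  simp [Real.cos_pi_div_two_sub]

theorem ray_cont (δ : ℝ) : Continuous fun x : ℝ => ray δ x := by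
  unfold ray
  fun_prop

theorem DB_diff {k N : ℕ} {ps lam : ℕ → ℂ} (F : Frm k N ps lam) (y : ℕ) (b : ℕ → ℂ) (z : ℂ)
    (hz : 0 < z.re) : DifferentiableAt ℂ (DB k y lam b) z := by
  obtain ⟨B, hB, hBd, -⟩ := dd_bound F y b
  have hQ' : (0 : ℝ) < y.factorial := by exact_mod_cast Nat.factorial_pos y
  set U : Set ℂ := {w | z.re / 2 < w.re} with hU
  have hUo : IsOpen U := isOpen_lt continuous_const Complex.continuous_re
  have hzU : z ∈ U := by
    change z.re / 2 < z.re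
    linarith
  have h1 : DifferentiableOn ℂ
      (fun w => ∑' m : ℕ, dd k y lam b m * cexp (-((m : ℂ) / (y.factorial : ℕ) * w))) U := by
    refine differentiableOn_tsum_of_summable_norm
      ((summable_pow_exp k (c := z.re / 2 / y.factorial) (by positivity)).mul_left B)
      (fun m => ?_) hUo (fun m w hw => ?_)
    · fun_prop
    · rw [norm_mul, norm_cexp_freq, ← mul_assoc]
      have hw' : z.re / 2 < w.re := hw
      gcongr
      exact hBd m
  have h2 : DifferentiableOn ℂ (DB k y lam b) U := by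
    refine h1.congr fun w hw => ?_
    have hw' : z.re / 2 < w.re := hw
    exact DB_eq F y b w (by linarith)
  exact h2.differentiableAt (hUo.mem_nhds hzU)

theorem dd_freq {k : ℕ} {lam : ℕ → ℂ} (y : ℕ) (b : ℕ → ℂ) (m : ℕ)
    (hd : dd k y lam b m ≠ 0) : ∃ h c : ℕ, 1 ≤ h ∧ h ≤ y ∧ h * m = c * y.factorial := by
  by_contra hcon
  push Not at hcon
  refine hd (Finset.sum_eq_zero fun h hh => ?_)
  obtain ⟨h1, h2⟩ := Finset.mem_Icc.1 hh
  obtain ⟨r, hr⟩ := Nat.dvd_factorial (by omega : 0 < h) h2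
  have hdiv : y.factorial / h = r := by rw [hr]; exact Nat.mul_div_cancel_left r (by omega)
  rw [hdiv]
  rw [if_neg, mul_zero]
  rintro ⟨c, rfl⟩
  refine hcon h c h1 h2 ?_
  rw [hr]
  ring

theorem spacing {k : ℕ} {lam : ℕ → ℂ} (y : ℕ) (hy : 1 ≤ y) (b : ℕ → ℂ) (m n : ℕ)
    (hm : dd k y lam b m ≠ 0) (hn : dd k y lam b n ≠ 0) (hmn : m ≠ n) :
    (y.factorial : ℝ) / (y : ℝ) ^ 2 ≤ |(m : ℝ) - n| := by
  obtain ⟨h, c, h1, h2, h3⟩ := dd_freq y b m hm
  obtain ⟨h', c', h1', h2', h3'⟩ := dd_freq y b n hn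
  have hQ' : (0 : ℝ) < y.factorial := by exact_mod_cast Nat.factorial_pos y
  have e3 : (h : ℝ) * m = c * y.factorial := by exact_mod_cast h3
  have e3' : (h' : ℝ) * n = c' * y.factorial := by exact_mod_cast h3'
  have e : (h : ℝ) * h' * (m - n) = y.factorial * ((c : ℝ) * h' - c' * h) := by
    linear_combination (h' : ℝ) * e3 - (h : ℝ) * e3'
  have hint : ((c : ℤ) * h' - c' * h) ≠ 0 := by
    intro h0
    have h0' : ((c : ℝ) * h' - c' * h) = 0 := by exact_mod_cast h0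
    rw [h0', mul_zero] at e
    have hh : (h : ℝ) * h' ≠ 0 := by
      have : (0 : ℝ) < h := by exact_mod_cast h1
      have : (0 : ℝ) < h' := by exact_mod_cast h1'
      positivity
    have : (m : ℝ) - n = 0 := (mul_eq_zero.1 e).resolve_left hh
    exact hmn (by exact_mod_cast sub_eq_zero.1 this)
  have habs : (1 : ℝ) ≤ |(c : ℝ) * h' - c' * h| := by
    have := Int.one_le_abs hint
    exact_mod_cast this
  have hpos : (0 : ℝ) < h := by exact_mod_cast h1
  have hpos' : (0 : ℝ) < h' := by exact_mod_cast h1'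
  have hy0 : (0 : ℝ) < y := by exact_mod_cast hy
  have e4 : (h : ℝ) * h' * |(m : ℝ) - n| = y.factorial * |(c : ℝ) * h' - c' * h| := by
    have := congrArg abs e
    rw [abs_mul ((h : ℝ) * h') _, abs_mul (y.factorial : ℝ) _,
      abs_of_pos (by positivity : (0 : ℝ) < (h : ℝ) * h'), abs_of_pos hQ'] at this
    exact this
  have e5 : (y.factorial : ℝ) ≤ (h : ℝ) * h' * |(m : ℝ) - n| := by
    rw [e4]
    nlinarith
  have e6 : (h : ℝ) * h' ≤ (y : ℝ) ^ 2 := by
    have a1 : (h : ℝ) ≤ y := by exact_mod_cast h2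
    have a2 : (h' : ℝ) ≤ y := by exact_mod_cast h2'
    nlinarith
  rw [div_le_iff₀ (by positivity)]
  calc (y.factorial : ℝ) ≤ (h : ℝ) * h' * |(m : ℝ) - n| := e5
    _ ≤ (y : ℝ) ^ 2 * |(m : ℝ) - n| := by gcongr
    _ = |(m : ℝ) - n| * (y : ℝ) ^ 2 := by ring

theorem summable_sq {k N : ℕ} {ps lam : ℕ → ℂ} (F : Frm k N ps lam) (y : ℕ) (b : ℕ → ℂ)
    {c : ℝ} (hc : 0 < c) : Summable fun m : ℕ => ‖dd k y lam b m‖ ^ 2 * Real.exp (-(m * c)) := by
  obtain ⟨B, hB, hBd, -⟩ := dd_bound F y b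
  refine Summable.of_nonneg_of_le (fun m => by positivity) (fun m => ?_)
    ((summable_pow_exp (k * 2) hc).mul_left (B ^ 2))
  rw [← mul_assoc]
  gcongr
  calc ‖dd k y lam b m‖ ^ 2 ≤ (B * (m : ℝ) ^ k) ^ 2 := by
        gcongr
        exact hBd m
    _ = B ^ 2 * (m : ℝ) ^ (k * 2) := by rw [mul_pow, ← pow_mul]

theorem block {k N : ℕ} {ps lam : ℕ → ℂ} (F : Frm k N ps lam) (y : ℕ) (hy : 1 ≤ y) (b : ℕ → ℂ)
    {C1 C2 : ℝ} (hC1 : 0 < C1) (hC2 : 0 < C2)
    (hRTA : ∀ (g : ℂ → ℂ) (δ X : ℝ), 0 < δ → δ ≤ 1 / 10 → 0 < X →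
      (∀ z : ℂ, 0 < z.re → DifferentiableAt ℂ g z) →
      ∫ x in X..(2 * X), ‖g (ray δ x)‖ ^ 2 ≤
        C1 / (δ * X) * ∫ v in (δ * X / 4)..(4 * δ * X), ∫ u in (X / 4)..(4 * X),
          ‖g (v + u * I)‖ ^ 2)
    (hFJ : ∀ (d : ℕ → ℂ) (Q Y U v : ℝ), 0 < Q → 0 < Y → Y ≤ U → 0 < v →
      Summable (fun m => ‖d m‖ * Real.exp (-(m / Q * v))) →
      (∀ m n : ℕ, d m ≠ 0 → d n ≠ 0 → m ≠ n → Q / Y ≤ |(m : ℝ) - n|) →
      ∫ u in (U / 4)..(4 * U), ‖∑' m : ℕ, d m * cexp (-(m / Q * (v + u * I)))‖ ^ 2 ≤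
        C2 * U * ∑' m : ℕ, ‖d m‖ ^ 2 * Real.exp (-(2 * (m / Q) * v)))
    {T X : ℝ} (hT : 10 ≤ T) (hX : (y : ℝ) ^ 2 ≤ X) :
    ∫ x in X..(2 * X), ‖DB k y lam b (ray (1 / T) x)‖ ^ 2 ≤
      C1 * C2 * (15 / 4) * X * ∑' m : ℕ, ‖dd k y lam b m‖ ^ 2 *
        Real.exp (-(((m : ℝ) / y.factorial / T) * X / 2)) := by
  obtain ⟨B, hB, hBd, -⟩ := dd_bound F y b
  have hQ' : (0 : ℝ) < y.factorial := by exact_mod_cast Nat.factorial_pos y
  have hy0 : (0 : ℝ) < y := by exact_mod_cast hy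
  have hX0 : 0 < X := lt_of_lt_of_le (by positivity) hX
  have hT0 : 0 < T := by linarith
  have hδ : 0 < 1 / T := by positivity
  have hδ' : 1 / T ≤ 1 / 10 := one_div_le_one_div_of_le (by norm_num) hT
  set δ : ℝ := 1 / T with hδdef
  set S : ℝ := ∑' m : ℕ, ‖dd k y lam b m‖ ^ 2 *
        Real.exp (-(((m : ℝ) / y.factorial / T) * X / 2)) with hS
  have hsumS : Summable fun m : ℕ => ‖dd k y lam b m‖ ^ 2 *
        Real.exp (-(((m : ℝ) / y.factorial / T) * X / 2)) := by
    refine (summable_sq F y b (c := X / (2 * y.factorial * T)) (by positivity)).congr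
      fun m => ?_
    congr 3
    field_simp
  have hinner : ∀ v ∈ Set.uIoc (δ * X / 4) (4 * δ * X),
      ‖∫ u in (X / 4)..(4 * X), ‖DB k y lam b (v + u * I)‖ ^ 2‖ ≤ C2 * X * S := by
    intro v hv
    have hle : δ * X / 4 ≤ 4 * δ * X := by nlinarith [mul_pos hδ hX0]
    rw [uIoc_of_le hle] at hv
    have hv0 : 0 < v := lt_trans (by positivity) hv.1
    have hnn : 0 ≤ ∫ u in (X / 4)..(4 * X), ‖DB k y lam b (v + u * I)‖ ^ 2 :=
      intervalIntegral.integral_nonneg (by linarith) fun u _ => by positivity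
    rw [Real.norm_eq_abs, abs_of_nonneg hnn]
    have h1 := hFJ (dd k y lam b) (y.factorial : ℕ) ((y : ℝ) ^ 2) X v hQ' (by positivity) hX hv0
      (by
        refine Summable.of_nonneg_of_le (fun m => by positivity) (fun m => ?_)
          ((summable_pow_exp k (c := v / y.factorial) (by positivity)).mul_left B)
        rw [← mul_assoc]
        have : (m : ℝ) / (y.factorial : ℕ) * v = m * (v / y.factorial) := by ring
        rw [this]
        gcongr
        exact hBd m)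
      (fun m n hm hn hmn => spacing y hy b m n hm hn hmn)
    have e1 : ∀ u : ℝ, DB k y lam b (v + u * I) = ∑' m : ℕ, dd k y lam b m *
        cexp (-((m : ℂ) / (((y.factorial : ℕ) : ℝ) : ℂ) * (v + u * I))) := by
      intro u
      rw [DB_eq F y b _ (by simpa using hv0)]
      simp only [Complex.ofReal_natCast]
    simp only [e1]
    refine h1.trans ?_
    gcongr
    refine Summable.tsum_le_tsum (fun m => ?_) ?_ hsumS
    · gcongr
      rw [hδdef] at hv
      have h4 : 1 / T * X / 4 ≤ v := hv.1.le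
      have h5 : (m : ℝ) / (y.factorial : ℕ) / T * X / 2 =
          2 * ((m : ℝ) / (y.factorial : ℕ)) * (1 / T * X / 4) := by ring
      rw [h5]
      gcongr
    · refine (summable_sq F y b (c := 2 * v / y.factorial) (by positivity)).congr fun m => ?_
      congr 3
      ring
  have h2 := intervalIntegral.norm_integral_le_of_norm_le_const hinner
  have h3 := hRTA (DB k y lam b) δ X hδ hδ' hX0 (fun z hz => DB_diff F y b z hz)
  have hlen : |4 * δ * X - δ * X / 4| = 15 / 4 * (δ * X) := by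
    rw [abs_of_nonneg (by nlinarith [mul_pos hδ hX0])]
    ring
  rw [hlen] at h2
  have h4 := (le_abs_self _).trans h2
  calc ∫ x in X..(2 * X), ‖DB k y lam b (ray δ x)‖ ^ 2 ≤ _ := h3
    _ ≤ C1 / (δ * X) * (C2 * X * S * (15 / 4 * (δ * X))) := by gcongr
    _ = C1 * C2 * (15 / 4) * X * S := by
      field_simp

theorem ryd (hR : S_RTA) (hF : S_FJ2) : S_RYD := by
  obtain ⟨C1, hC1, hRTA⟩ := hR
  obtain ⟨C2, hC2, hFJ⟩ := hF
  intro k N ps lam F
  obtain ⟨Ck, hCk, hgeom⟩ := geom_sum k F.k_pos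
  have hk : (1 : ℝ) ≤ k := by exact_mod_cast F.k_pos
  refine ⟨C1 * C2 * (15 / 4) * (2 : ℝ) ^ ((k : ℝ) - 1) * Ck, 10, by positivity, le_rfl, ?_⟩
  intro T y b hT hy _
  have hT0 : 0 < T := by linarith
  have hQ' : (0 : ℝ) < y.factorial := by exact_mod_cast Nat.factorial_pos y
  have hy0 : (1 : ℝ) ≤ y := by exact_mod_cast hy
  have hY1 : (1 : ℝ) ≤ (y : ℝ) ^ 2 := one_le_pow₀ hy0
  set Y : ℝ := (y : ℝ) ^ 2 with hY
  set G : ℝ → ℝ := fun x => ‖DB k y lam b (ray (1 / T) x)‖ ^ 2 * x ^ ((k : ℝ) - 1) with hG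
  have hsin : 0 < Real.sin (1 / T) := by
    refine Real.sin_pos_of_pos_of_lt_pi (by positivity) ?_
    have : 1 / T ≤ 1 / 10 := one_div_le_one_div_of_le (by norm_num) hT
    linarith [Real.pi_gt_three]
  have hD : ContinuousOn (fun x : ℝ => ‖DB k y lam b (ray (1 / T) x)‖ ^ 2) (Ioi 0) := by
    intro x hx
    have hx0 : (0 : ℝ) < x := hx
    have h1 : 0 < (ray (1 / T) x).re := by
      rw [ray_re]
      positivity
    refine ContinuousAt.continuousWithinAt ?_
    have h2 := (DB_diff F y b _ h1).continuousAt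
    exact (ContinuousAt.comp (f := fun x : ℝ => ray (1 / T) x) h2
      (ray_cont _).continuousAt).norm.pow 2
  have hGc : ContinuousOn G (Ioi 0) := by
    refine hD.mul fun x hx => ?_
    exact (Real.continuousAt_rpow_const _ _ (Or.inl (ne_of_gt hx))).continuousWithinAt
  have hX : ∀ j : ℕ, 1 ≤ 2 ^ j * Y := by
    intro j
    have : (1 : ℝ) ≤ 2 ^ j := one_le_pow₀ (by norm_num)
    nlinarith
  have hXY : ∀ j : ℕ, Y ≤ 2 ^ j * Y := by
    intro j
    have : (1 : ℝ) ≤ 2 ^ j := one_le_pow₀ (by norm_num)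
    nlinarith
  have hsub : ∀ A B : ℝ, 1 ≤ A → A ≤ B → uIcc A B ⊆ Ioi (0 : ℝ) := by
    intro A B hA hAB x hx
    rw [uIcc_of_le hAB] at hx
    exact lt_of_lt_of_le (by linarith) hx.1
  have hstepX : ∀ j : ℕ, (2 : ℝ) ^ (j + 1) * Y = 2 * (2 ^ j * Y) := by
    intro j
    rw [pow_succ]
    ring
  have hint : ∀ j : ℕ, IntervalIntegrable G volume (2 ^ j * Y) (2 ^ (j + 1) * Y) := by
    intro j
    refine (hGc.mono (hsub _ _ (hX j) ?_)).intervalIntegrable
    rw [hstepX]
    linarith [hX j]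
  -- one block
  have hblock : ∀ j : ℕ, ∫ x in (2 ^ j * Y)..(2 ^ (j + 1) * Y), G x ≤
      C1 * C2 * (15 / 4) * (2 : ℝ) ^ ((k : ℝ) - 1) * ((2 ^ j * Y) ^ k *
        ∑' m : ℕ, ‖dd k y lam b m‖ ^ 2 *
        Real.exp (-(((m : ℝ) / y.factorial / T) * (2 ^ j * Y) / 2))) := by
    intro j
    have hb := block F y hy b hC1 hC2 hRTA hFJ hT (hXY j)
    have hi := hint j
    rw [hstepX] at hi ⊢
    set X : ℝ := 2 ^ j * Y with hXd
    have hX1 : 1 ≤ X := hX j
    have hX0 : 0 < X := by linarith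
    have hi2 : IntervalIntegrable (fun x : ℝ => ‖DB k y lam b (ray (1 / T) x)‖ ^ 2)
        volume X (2 * X) :=
      (hD.mono (hsub _ _ hX1 (by linarith))).intervalIntegrable
    have h1 : ∫ x in X..(2 * X), G x ≤
        ∫ x in X..(2 * X), ‖DB k y lam b (ray (1 / T) x)‖ ^ 2 * (2 * X) ^ ((k : ℝ) - 1) := by
      refine intervalIntegral.integral_mono_on (by linarith) hi (hi2.mul_const _) ?_
      intro x hx
      have hx0 : 0 ≤ x := by linarith [hx.1]
      exact mul_le_mul_of_nonneg_left (Real.rpow_le_rpow hx0 hx.2 (by linarith))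
        (by positivity)
    rw [intervalIntegral.integral_mul_const] at h1
    refine h1.trans ?_
    have h2 : (2 * X) ^ ((k : ℝ) - 1) = (2 : ℝ) ^ ((k : ℝ) - 1) * X ^ ((k : ℝ) - 1) :=
      Real.mul_rpow (by norm_num) hX0.le
    have h3 : X * X ^ ((k : ℝ) - 1) = X ^ k := by
      rw [← Real.rpow_natCast, ← Real.rpow_one_add' hX0.le (by linarith)]
      congr 1
      ring
    calc (∫ x in X..(2 * X), ‖DB k y lam b (ray (1 / T) x)‖ ^ 2) * (2 * X) ^ ((k : ℝ) - 1) ≤
        (C1 * C2 * (15 / 4) * X * ∑' m : ℕ, ‖dd k y lam b m‖ ^ 2 *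
        Real.exp (-(((m : ℝ) / y.factorial / T) * X / 2))) * (2 * X) ^ ((k : ℝ) - 1) := by
          gcongr
      _ = _ := by
          rw [h2, ← h3]
          ring
  -- the sum over the blocks
  have hsw : ∀ j : ℕ, Summable fun m : ℕ => ‖dd k y lam b m‖ ^ 2 *
        Real.exp (-(((m : ℝ) / y.factorial / T) * (2 ^ j * Y) / 2)) := by
    intro j
    have := hX j
    refine (summable_sq F y b (c := (2 ^ j * Y) / (2 * y.factorial * T)) (by positivity)).congr
      fun m => ?_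
    congr 3
    field_simp
  obtain ⟨hs1, hs2⟩ := tsum_term_le F y b hT0
  have htotal : ∀ J : ℕ, ∑ j ∈ Finset.range J, ((2 ^ j * Y) ^ k *
        ∑' m : ℕ, ‖dd k y lam b m‖ ^ 2 *
        Real.exp (-(((m : ℝ) / y.factorial / T) * (2 ^ j * Y) / 2))) ≤
      Ck * (T ^ k * DS y lam b T) := by
    intro J
    have e1 : ∑ j ∈ Finset.range J, ((2 ^ j * Y) ^ k *
        ∑' m : ℕ, ‖dd k y lam b m‖ ^ 2 *
        Real.exp (-(((m : ℝ) / y.factorial / T) * (2 ^ j * Y) / 2))) =
        ∑' m : ℕ, ∑ j ∈ Finset.range J, (2 ^ j * Y) ^ k * (‖dd k y lam b m‖ ^ 2 *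
        Real.exp (-(((m : ℝ) / y.factorial / T) * (2 ^ j * Y) / 2))) := by
      rw [Summable.tsum_finsetSum (fun j _ => (hsw j).mul_left _)]
      refine Finset.sum_congr rfl fun j _ => ?_
      rw [tsum_mul_left]
    rw [e1, ← hs2, ← tsum_mul_left]
    refine Summable.tsum_le_tsum (fun m => ?_) ?_ (hs1.mul_left Ck)
    · refine le_trans ?_ (mul_le_mul_of_nonneg_left (term_le F y b hT0 m) hCk.le)
      rcases Nat.eq_zero_or_pos m with rfl | hm
      · simp [dd_zero F y b]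
      · have hm0 : (0 : ℝ) < m := by exact_mod_cast hm
        have hw : 0 < (m : ℝ) / y.factorial / T := by positivity
        have h1 := hgeom _ Y J hw hY1
        calc ∑ j ∈ Finset.range J, (2 ^ j * Y) ^ k * (‖dd k y lam b m‖ ^ 2 *
            Real.exp (-(((m : ℝ) / y.factorial / T) * (2 ^ j * Y) / 2))) =
            ‖dd k y lam b m‖ ^ 2 * ∑ j ∈ Finset.range J, (2 ^ j * Y) ^ k *
            Real.exp (-(((m : ℝ) / y.factorial / T) * (2 ^ j * Y) / 2)) := by
              rw [Finset.mul_sum]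
              exact Finset.sum_congr rfl fun j _ => by ring
          _ ≤ ‖dd k y lam b m‖ ^ 2 * (Ck * ((m : ℝ) / y.factorial / T)⁻¹ ^ k *
              Real.exp (-(((m : ℝ) / y.factorial / T) / 4))) := by gcongr
          _ = _ := by ring
    · exact summable_sum fun j _ => (hsw j).mul_left _
  set I0 : ℝ := C1 * C2 * (15 / 4) * (2 : ℝ) ^ ((k : ℝ) - 1) * Ck * T ^ k * DS y lam b T with hI0
  have hbound : ∀ J : ℕ, ∫ x in Y..(2 ^ J * Y), G x ≤ I0 := by
    intro J
    have e1 : ∫ x in Y..(2 ^ J * Y), G x =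
        ∑ j ∈ Finset.range J, ∫ x in (2 ^ j * Y)..(2 ^ (j + 1) * Y), G x := by
      have := intervalIntegral.sum_integral_adjacent_intervals (μ := volume) (f := G)
        (a := fun j : ℕ => (2 : ℝ) ^ j * Y) (n := J) (fun j _ => hint j)
      simp only [pow_zero, one_mul] at this
      exact this.symm
    rw [e1]
    refine (Finset.sum_le_sum fun j _ => hblock j).trans ?_
    rw [← Finset.mul_sum]
    calc C1 * C2 * (15 / 4) * (2 : ℝ) ^ ((k : ℝ) - 1) * _ ≤
        C1 * C2 * (15 / 4) * (2 : ℝ) ^ ((k : ℝ) - 1) * (Ck * (T ^ k * DS y lam b T)) := by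
          gcongr
          exact htotal J
      _ = I0 := by rw [hI0]; ring
  have htend : Tendsto (fun J : ℕ => (2 : ℝ) ^ J * Y) atTop atTop :=
    (tendsto_pow_atTop_atTop_of_one_lt (by norm_num)).atTop_mul_const (by linarith)
  have hGnn : ∀ x ∈ Ioi Y, 0 ≤ G x := by
    intro x hx
    have : (0 : ℝ) < x := lt_trans (by linarith) hx
    simp only [hG]
    positivity
  have hIO : IntegrableOn G (Ioi Y) := by
    refine integrableOn_Ioi_of_intervalIntegral_norm_bounded (l := atTop) I0 Y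
      (b := fun J : ℕ => (2 : ℝ) ^ J * Y) (fun J => ?_) htend (Eventually.of_forall fun J => ?_)
    · have h1 : IntervalIntegrable G volume Y (2 ^ J * Y) :=
        (hGc.mono (hsub _ _ hY1 (hXY J))).intervalIntegrable
      exact (intervalIntegrable_iff_integrableOn_Ioc_of_le (hXY J)).1 h1
    · refine le_trans (le_of_eq ?_) (hbound J)
      refine intervalIntegral.integral_congr fun x hx => ?_
      rw [uIcc_of_le (hXY J)] at hx
      have hx0 : (0 : ℝ) < x := lt_of_lt_of_le (by linarith) hx.1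
      have : 0 ≤ G x := by
        simp only [hG]
        positivity
      exact Real.norm_of_nonneg this
  refine ⟨hIO, ?_⟩
  exact le_of_tendsto' (intervalIntegral_tendsto_integral_Ioi Y hIO htend) hbound

end Pool.Agent.Y287.GL
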