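import Mathlib

set_option autoImplicit false

/-! # Geometric sums of `X^k e^(-wX/2)` (task RYD of project GD2) -/

namespace Pool.Agent.Y287.GL

open Filter Topology MeasureTheory Set

theorem geom_sum (k : ℕ) (hk : 1 ≤ k) : ∃ C : ℝ, 0 < C ∧ ∀ (w Y : ℝ) (J : ℕ), 0 < w → 1 ≤ Y →
    ∑ j ∈ Finset.range J, (2 ^ j * Y) ^ k * Real.exp (-(w * (2 ^ j * Y) / 2)) ≤
      C * w⁻¹ ^ k * Real.exp (-(w / 4)) := by
  have hk1 : (0 : ℝ) ≤ (k : ℝ) - 1 := by
    have : (1 : ℝ) ≤ k := by exact_mod_cast hk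
    linarith
  have hk0 : (0 : ℝ) < k := by linarith
  refine ⟨8 ^ k * Real.Gamma k, by
    have := Real.Gamma_pos_of_pos hk0
    positivity, ?_⟩
  intro w Y J hw hY
  set f : ℝ → ℝ := fun x => x ^ ((k : ℝ) - 1) * Real.exp (-(w / 8 * x)) with hf
  have hcont : ContinuousOn f (Ioi 0) := by
    intro x hx
    have hx0 : x ≠ 0 := (ne_of_gt hx)
    refine ContinuousAt.continuousWithinAt ?_
    refine (Real.continuousAt_rpow_const _ _ (Or.inl hx0)).mul ?_
    fun_prop
  have hX : ∀ j : ℕ, 1 ≤ 2 ^ j * Y := by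
    intro j
    have : (1 : ℝ) ≤ 2 ^ j := one_le_pow₀ (by norm_num)
    nlinarith
  have hint : ∀ j : ℕ, IntervalIntegrable f volume (2 ^ j * Y) (2 ^ (j + 1) * Y) := by
    intro j
    refine ContinuousOn.intervalIntegrable (hcont.mono ?_)
    intro x hx
    have h1 := hX j
    have h2 := hX (j + 1)
    rw [mem_uIcc] at hx
    rcases hx with hx | hx
    · exact lt_of_lt_of_le (by linarith) hx.1
    · exact lt_of_lt_of_le (by linarith) hx.1
  have hstep : ∀ j : ℕ, (2 ^ j * Y) ^ k * Real.exp (-(w * (2 ^ j * Y) / 2)) ≤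
      Real.exp (-(w / 4)) * ∫ x in (2 ^ j * Y)..(2 ^ (j + 1) * Y), f x := by
    intro j
    set X : ℝ := 2 ^ j * Y with hXdef
    have hX1 : 1 ≤ X := hX j
    have hX0 : 0 < X := by linarith
    have h2X : 2 ^ (j + 1) * Y = 2 * X := by rw [hXdef, pow_succ]; ring
    have hint' := hint j
    rw [h2X] at hint' ⊢
    have h1 : Real.exp (-(w * X / 2)) ≤ Real.exp (-(w / 4)) * Real.exp (-(w * X / 4)) := by
      rw [← Real.exp_add]
      apply Real.exp_le_exp.2
      nlinarith
    have h2 : X ^ k * Real.exp (-(w * X / 4)) ≤ ∫ x in X..(2 * X), f x := by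
      have hc : ∫ _x in X..(2 * X), (X ^ ((k : ℝ) - 1) * Real.exp (-(w * X / 4))) =
          X ^ k * Real.exp (-(w * X / 4)) := by
        rw [intervalIntegral.integral_const, smul_eq_mul]
        have : X ^ k = X * X ^ ((k : ℝ) - 1) := by
          rw [← Real.rpow_natCast, ← Real.rpow_one_add' hX0.le (by linarith)]
          congr 1
          ring
        rw [this]
        ring
      rw [← hc]
      refine intervalIntegral.integral_mono_on (by linarith) (by simp) hint' ?_
      intro x hx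
      have hx0 : 0 < x := by linarith [hx.1]
      refine mul_le_mul (Real.rpow_le_rpow hX0.le hx.1 hk1) ?_ (Real.exp_pos _).le
        (Real.rpow_nonneg hx0.le _)
      apply Real.exp_le_exp.2
      nlinarith [hx.2]
    calc X ^ k * Real.exp (-(w * X / 2)) ≤
        X ^ k * (Real.exp (-(w / 4)) * Real.exp (-(w * X / 4))) := by gcongr
      _ = Real.exp (-(w / 4)) * (X ^ k * Real.exp (-(w * X / 4))) := by ring
      _ ≤ _ := by gcongr
  have hf0 : ∀ x ∈ Ioi (0 : ℝ), 0 ≤ f x := by
    intro x hx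
    have : (0 : ℝ) < x := hx
    positivity
  have hI : IntegrableOn f (Ioi 0) := by
    have := integrableOn_rpow_mul_exp_neg_mul_rpow (p := 1) (s := (k : ℝ) - 1) (b := w / 8)
      (by linarith) zero_lt_one (by positivity)
    refine this.congr_fun (fun x hx => ?_) measurableSet_Ioi
    simp [hf, Real.rpow_one]
  calc ∑ j ∈ Finset.range J, (2 ^ j * Y) ^ k * Real.exp (-(w * (2 ^ j * Y) / 2))
      ≤ ∑ j ∈ Finset.range J,
        Real.exp (-(w / 4)) * ∫ x in (2 ^ j * Y)..(2 ^ (j + 1) * Y), f x :=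
        Finset.sum_le_sum fun j _ => hstep j
    _ = Real.exp (-(w / 4)) * ∫ x in (2 ^ 0 * Y)..(2 ^ J * Y), f x := by
        rw [← Finset.mul_sum]
        congr 1
        exact intervalIntegral.sum_integral_adjacent_intervals (a := fun j : ℕ => (2 : ℝ) ^ j * Y)
          (fun j _ => hint j)
    _ ≤ Real.exp (-(w / 4)) * ∫ x in Ioi (0 : ℝ), f x := by
        gcongr
        have hle : (2 : ℝ) ^ 0 * Y ≤ 2 ^ J * Y := by
          have : (1 : ℝ) ≤ 2 ^ J := one_le_pow₀ (by norm_num)
          nlinarith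
        rw [intervalIntegral.integral_of_le hle]
        refine setIntegral_mono_set hI ?_ ?_
        · rw [EventuallyLE, ae_restrict_iff' measurableSet_Ioi]
          exact Eventually.of_forall hf0
        · refine Eventually.of_forall fun x hx => ?_
          have := hX 0
          exact lt_trans (by linarith) hx.1
    _ = Real.exp (-(w / 4)) * ((1 / (w / 8)) ^ (k : ℝ) * Real.Gamma k) := by
        rw [← Real.integral_rpow_mul_exp_neg_mul_Ioi hk0 (by positivity : 0 < w / 8)]
    _ = 8 ^ k * Real.Gamma k * w⁻¹ ^ k * Real.exp (-(w / 4)) := by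
        rw [Real.rpow_natCast]
        have : (1 / (w / 8)) = 8 * w⁻¹ := by field_simp
        rw [this, mul_pow]
        ring

end Pool.Agent.Y287.GL
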