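import Pool.Agent.Y671.GL.SpecR

set_option autoImplicit false

/-! # The dual polynomial as a Dirichlet series with frequencies `m / y!` (task RYD of project GD2) -/

namespace Pool.Agent.Y287.GL

open Complex Filter Topology MeasureTheory Set
open scoped ComplexConjugate
open Pool.Agent.H24R2.DZ (ray)
open Pool.Agent.Y671.GL

/-- the coefficients of the dual polynomial -/
noncomputable def dd (k y : ℕ) (lam b : ℕ → ℂ) (m : ℕ) : ℂ :=
  ∑ h ∈ Finset.Icc 1 y, conj (b h) * (((h : ℝ) ^ (-(((k : ℝ) + 1) / 2)) : ℝ) : ℂ) *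
    (if y.factorial / h ∣ m then aa k lam (m / (y.factorial / h)) else 0)

theorem aa_zero {k N : ℕ} {ps lam : ℕ → ℂ} (F : Frm k N ps lam) : aa k lam 0 = 0 := by
  simp [aa, F.zero]

theorem aa_bound {k N : ℕ} {ps lam : ℕ → ℂ} (F : Frm k N ps lam) :
    ∃ C : ℝ, 0 < C ∧ ∀ n : ℕ, ‖aa k lam n‖ ≤ C * (n : ℝ) ^ k := by
  obtain ⟨th, C, h0, h1, h⟩ := F.ram
  have hk : (1 : ℝ) ≤ k := by exact_mod_cast F.k_pos
  have hC : 0 < C := by
    have := h 1 le_rfl
    rw [F.one] at this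
    simp at this
    linarith
  refine ⟨C, hC, fun n => ?_⟩
  rcases Nat.eq_zero_or_pos n with rfl | hn
  · rw [aa_zero F]
    simp
    positivity
  · have hn1 : (1 : ℝ) ≤ n := by exact_mod_cast hn
    have hn0 : (0 : ℝ) < n := by linarith
    unfold aa
    rw [norm_mul, Complex.norm_real, Real.norm_eq_abs,
      abs_of_nonneg (Real.rpow_nonneg hn0.le _)]
    calc ‖lam n‖ * (n : ℝ) ^ (((k : ℝ) - 1) / 2) ≤
        (C * (n : ℝ) ^ th) * (n : ℝ) ^ (((k : ℝ) - 1) / 2) := by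
          gcongr
          exact h n hn
      _ = C * (n : ℝ) ^ (th + ((k : ℝ) - 1) / 2) := by
          rw [Real.rpow_add hn0]
          ring
      _ ≤ C * (n : ℝ) ^ (k : ℝ) := by
          gcongr
          linarith
      _ = C * (n : ℝ) ^ k := by rw [Real.rpow_natCast]

/-- the bound for the coefficients -/
theorem dd_bound {k N : ℕ} {ps lam : ℕ → ℂ} (F : Frm k N ps lam) (y : ℕ) (b : ℕ → ℂ) :
    ∃ B : ℝ, 0 ≤ B ∧ (∀ m : ℕ, ‖dd k y lam b m‖ ≤ B * (m : ℝ) ^ k) ∧
    ∀ h ∈ Finset.Icc 1 y, ∀ m : ℕ, ‖conj (b h) * (((h : ℝ) ^ (-(((k : ℝ) + 1) / 2)) : ℝ) : ℂ) *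
      (if y.factorial / h ∣ m then aa k lam (m / (y.factorial / h)) else 0)‖ ≤
        B * (m : ℝ) ^ k := by
  obtain ⟨C, hC, haa⟩ := aa_bound F
  have key : ∀ h ∈ Finset.Icc 1 y, ∀ m : ℕ,
      ‖conj (b h) * (((h : ℝ) ^ (-(((k : ℝ) + 1) / 2)) : ℝ) : ℂ) *
      (if y.factorial / h ∣ m then aa k lam (m / (y.factorial / h)) else 0)‖ ≤
        ‖b h‖ * C * (m : ℝ) ^ k := by
    intro h hh m
    have hh1 : (1 : ℝ) ≤ h := by exact_mod_cast (Finset.mem_Icc.1 hh).1
    rw [norm_mul, norm_mul, RCLike.norm_conj, Complex.norm_real, Real.norm_eq_abs,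
      abs_of_nonneg (Real.rpow_nonneg (by linarith) _)]
    have e1 : (h : ℝ) ^ (-(((k : ℝ) + 1) / 2)) ≤ 1 :=
      Real.rpow_le_one_of_one_le_of_nonpos hh1 (by
        have : (0 : ℝ) ≤ k := Nat.cast_nonneg _
        linarith)
    have e2 : ‖(if y.factorial / h ∣ m then aa k lam (m / (y.factorial / h)) else 0)‖ ≤
        C * (m : ℝ) ^ k := by
      split_ifs
      · refine (haa _).trans ?_
        gcongr
        exact Nat.div_le_self _ _
      · simp
        positivity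
    calc ‖b h‖ * (h : ℝ) ^ (-(((k : ℝ) + 1) / 2)) *
        ‖(if y.factorial / h ∣ m then aa k lam (m / (y.factorial / h)) else 0)‖ ≤
        ‖b h‖ * 1 * (C * (m : ℝ) ^ k) := by gcongr
      _ = _ := by ring
  refine ⟨∑ h ∈ Finset.Icc 1 y, ‖b h‖ * C, by positivity, fun m => ?_, fun h hh m => ?_⟩
  · unfold dd
    refine (norm_sum_le _ _).trans ?_
    rw [Finset.sum_mul]
    exact Finset.sum_le_sum fun h hh => key h hh m
  · refine (key h hh m).trans ?_
    gcongr
    exact Finset.single_le_sum (f := fun h => ‖b h‖ * C) (fun i _ => by positivity) hh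

theorem dd_zero {k N : ℕ} {ps lam : ℕ → ℂ} (F : Frm k N ps lam) (y : ℕ) (b : ℕ → ℂ) :
    dd k y lam b 0 = 0 := by
  unfold dd
  refine Finset.sum_eq_zero fun h _ => ?_
  simp [aa_zero F]

theorem summable_pow_exp (k : ℕ) {c : ℝ} (hc : 0 < c) :
    Summable fun m : ℕ => (m : ℝ) ^ k * Real.exp (-(m * c)) := by
  have := Real.summable_pow_mul_exp_neg_nat_mul k hc
  refine this.congr fun m => ?_
  congr 2
  ring

theorem norm_cexp_freq (m : ℕ) (Q : ℕ) (w : ℂ) :
    ‖cexp (-((m : ℂ) / Q * w))‖ = Real.exp (-(m * (w.re / Q))) := by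
  rw [Complex.norm_exp]
  congr 1
  have : ((m : ℂ) / Q * w) = (((m : ℝ) / (Q : ℝ) : ℝ) : ℂ) * w := by push_cast; ring
  rw [this, Complex.neg_re, Complex.re_ofReal_mul]
  ring

/-- the dual polynomial is a Dirichlet series with frequencies `m / y!` -/
theorem DB_eq {k N : ℕ} {ps lam : ℕ → ℂ} (F : Frm k N ps lam) (y : ℕ) (b : ℕ → ℂ) (w : ℂ)
    (hw : 0 < w.re) :
    DB k y lam b w = ∑' m : ℕ, dd k y lam b m * cexp (-((m : ℂ) / (y.factorial : ℕ) * w)) := by
  obtain ⟨B, hB, -, hBh⟩ := dd_bound F y b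
  have hQ : 0 < y.factorial := Nat.factorial_pos y
  have hQ' : (0 : ℝ) < y.factorial := by exact_mod_cast hQ
  have hsum : ∀ h ∈ Finset.Icc 1 y, Summable fun m : ℕ =>
      (conj (b h) * (((h : ℝ) ^ (-(((k : ℝ) + 1) / 2)) : ℝ) : ℂ) *
      (if y.factorial / h ∣ m then aa k lam (m / (y.factorial / h)) else 0)) *
        cexp (-((m : ℂ) / (y.factorial : ℕ) * w)) := by
    intro h hh
    refine Summable.of_norm_bounded ((summable_pow_exp k (c := w.re / y.factorial)
      (by positivity)).mul_left B) fun m => ?_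
    rw [norm_mul, norm_cexp_freq, ← mul_assoc]
    gcongr
    exact hBh h hh m
  have e1 : ∀ m : ℕ, dd k y lam b m * cexp (-((m : ℂ) / (y.factorial : ℕ) * w)) =
      ∑ h ∈ Finset.Icc 1 y, (conj (b h) * (((h : ℝ) ^ (-(((k : ℝ) + 1) / 2)) : ℝ) : ℂ) *
      (if y.factorial / h ∣ m then aa k lam (m / (y.factorial / h)) else 0)) *
        cexp (-((m : ℂ) / (y.factorial : ℕ) * w)) := by
    intro m
    unfold dd
    rw [Finset.sum_mul]
  rw [tsum_congr e1, Summable.tsum_finsetSum hsum]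
  unfold DB
  refine Finset.sum_congr rfl fun h hh => ?_
  obtain ⟨h1, h2⟩ := Finset.mem_Icc.1 hh
  have hdvd : h ∣ y.factorial := Nat.dvd_factorial (by omega) h2
  obtain ⟨r, hr⟩ := hdvd
  have hr0 : 0 < r := by
    rcases Nat.eq_zero_or_pos r with h0 | h0
    · rw [h0, mul_zero] at hr
      omega
    · exact h0
  have hdiv : y.factorial / h = r := by rw [hr]; exact Nat.mul_div_cancel_left r (by omega)
  simp only [mul_assoc]
  rw [tsum_mul_left, tsum_mul_left, hdiv]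
  congr 2
  unfold Ph
  have hinj : Function.Injective fun n : ℕ => r * n := fun a c hac =>
    Nat.eq_of_mul_eq_mul_left hr0 hac
  rw [← hinj.tsum_eq (f := fun m : ℕ => (if r ∣ m then aa k lam (m / r) else 0) *
    cexp (-((m : ℂ) / ((y.factorial : ℕ) : ℂ) * w)))]
  · refine tsum_congr fun n => ?_
    simp only [dvd_mul_right, if_true, Nat.mul_div_cancel_left n hr0]
    congr 2
    rw [hr]
    push_cast
    have hh0 : (h : ℂ) ≠ 0 := by exact_mod_cast (by omega : h ≠ 0)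
    have hr0' : (r : ℂ) ≠ 0 := by exact_mod_cast hr0.ne'
    field_simp
  · intro m hm
    have : r ∣ m := by
      by_contra hcon
      exact hm (by simp [hcon])
    obtain ⟨n, rfl⟩ := this
    exact ⟨n, rfl⟩

/-- the structure of the coefficients -/
theorem dd_eq {k N : ℕ} {ps lam : ℕ → ℂ} (_F : Frm k N ps lam) (y : ℕ) (b : ℕ → ℂ)
    {q a g : ℕ} (hq : 1 ≤ q) (ha : 1 ≤ a) (hco : a.Coprime q)
    (hg : y.factorial = q * g) :
    dd k y lam b (a * g) = (((a : ℝ) ^ (((k : ℝ) - 1) / 2) * (q : ℝ) ^ (-(((k : ℝ) + 1) / 2)) : ℝ) : ℂ) *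
      conj (Gq y lam b q a) := by
  have hQ : 0 < y.factorial := Nat.factorial_pos y
  have hg0 : 0 < g := by
    rcases Nat.eq_zero_or_pos g with h0 | h0
    · rw [h0, mul_zero] at hg
      omega
    · exact h0
  have hterm : ∀ h ∈ Finset.Icc 1 y,
      conj (b h) * (((h : ℝ) ^ (-(((k : ℝ) + 1) / 2)) : ℝ) : ℂ) *
      (if y.factorial / h ∣ a * g then aa k lam (a * g / (y.factorial / h)) else 0) =
      if q ∣ h then conj (b h) * (((h : ℝ) ^ (-(((k : ℝ) + 1) / 2)) : ℝ) : ℂ) *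
        aa k lam (a * (h / q)) else 0 := by
    intro h hh
    obtain ⟨h1, h2⟩ := Finset.mem_Icc.1 hh
    obtain ⟨r, hr⟩ := Nat.dvd_factorial (by omega : 0 < h) h2
    have hr0 : 0 < r := by
      rcases Nat.eq_zero_or_pos r with h0 | h0
      · rw [h0, mul_zero] at hr
        omega
      · exact h0
    have hdiv : y.factorial / h = r := by rw [hr]; exact Nat.mul_div_cancel_left r (by omega)
    rw [hdiv]
    have hrg : h * r = q * g := by rw [← hr, hg]
    have hiff : r ∣ a * g ↔ q ∣ h := by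
      constructor
      · intro hd
        have h3 : r * h ∣ a * g * h := Nat.mul_dvd_mul_right hd h
        have h4 : q * g ∣ a * h * g := by
          have : r * h = q * g := by rw [mul_comm, hrg]
          rw [this] at h3
          have e : a * g * h = a * h * g := by ring
          rwa [e] at h3
        have h5 : q ∣ a * h := (Nat.mul_dvd_mul_iff_right hg0).1 h4
        exact (hco.symm.dvd_of_dvd_mul_left h5)
      · rintro ⟨l, rfl⟩
        have : l * r = g := by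
          have h6 : q * (l * r) = q * g := by rw [← hrg]; ring
          exact Nat.eq_of_mul_eq_mul_left (by omega) h6
        rw [← this]
        exact ⟨a * l, by ring⟩
    by_cases hqh : q ∣ h
    · rw [if_pos (hiff.2 hqh), if_pos hqh]
      obtain ⟨l, rfl⟩ := hqh
      have : l * r = g := by
        have h6 : q * (l * r) = q * g := by rw [← hrg]; ring
        exact Nat.eq_of_mul_eq_mul_left (by omega) h6
      rw [← this, Nat.mul_div_cancel_left l (by omega : 0 < q)]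
      have : a * (l * r) / r = a * l := by
        rw [← mul_assoc]
        exact Nat.mul_div_cancel _ hr0
      rw [this]
    · rw [if_neg (fun h' => hqh (hiff.1 h')), if_neg hqh, mul_zero]
  unfold dd
  rw [Finset.sum_congr rfl hterm, ← Finset.sum_filter]
  have hsum : ∑ h ∈ (Finset.Icc 1 y).filter (fun h => q ∣ h),
      conj (b h) * (((h : ℝ) ^ (-(((k : ℝ) + 1) / 2)) : ℝ) : ℂ) * aa k lam (a * (h / q)) =
      ∑ l ∈ Finset.Icc 1 (y / q), conj (b (q * l)) *
        ((((q * l : ℕ) : ℝ) ^ (-(((k : ℝ) + 1) / 2)) : ℝ) : ℂ) * aa k lam (a * l) := by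
    refine Finset.sum_nbij' (fun h => h / q) (fun l => q * l) ?_ ?_ ?_ ?_ ?_
    · intro h hh
      obtain ⟨hh1, hh2⟩ := Finset.mem_filter.1 hh
      obtain ⟨h1, h2⟩ := Finset.mem_Icc.1 hh1
      obtain ⟨l, rfl⟩ := hh2
      rw [Nat.mul_div_cancel_left l (by omega : 0 < q)]
      refine Finset.mem_Icc.2 ⟨?_, ?_⟩
      · rcases Nat.eq_zero_or_pos l with h0 | h0
        · rw [h0] at h1
          omega
        · exact h0
      · rw [Nat.le_div_iff_mul_le (by omega)]
        rw [mul_comm]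
        exact h2
    · intro l hl
      obtain ⟨h1, h2⟩ := Finset.mem_Icc.1 hl
      rw [Nat.le_div_iff_mul_le (by omega)] at h2
      refine Finset.mem_filter.2 ⟨Finset.mem_Icc.2 ⟨?_, ?_⟩, dvd_mul_right _ _⟩
      · exact Nat.one_le_iff_ne_zero.2 (Nat.mul_ne_zero (by omega) (by omega))
      · rw [mul_comm]
        exact h2
    · intro h hh
      obtain ⟨-, hh2⟩ := Finset.mem_filter.1 hh
      exact Nat.mul_div_cancel' hh2
    · intro l _
      exact Nat.mul_div_cancel_left l (by omega)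
    · intro h hh
      obtain ⟨-, hh2⟩ := Finset.mem_filter.1 hh
      rw [Nat.mul_div_cancel' hh2]
  rw [hsum]
  unfold Gq
  rw [map_sum, Finset.mul_sum]
  refine Finset.sum_congr rfl fun l hl => ?_
  obtain ⟨hl1, -⟩ := Finset.mem_Icc.1 hl
  have hl0 : (0 : ℝ) < l := by exact_mod_cast hl1
  have hq0 : (0 : ℝ) < q := by exact_mod_cast hq
  have ha0 : (0 : ℝ) < a := by exact_mod_cast ha
  unfold aa
  rw [map_div₀, map_mul, Complex.conj_conj, Complex.conj_natCast]
  have e1 : ((q * l : ℕ) : ℝ) ^ (-(((k : ℝ) + 1) / 2)) * ((a * l : ℕ) : ℝ) ^ (((k : ℝ) - 1) / 2) =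
      (a : ℝ) ^ (((k : ℝ) - 1) / 2) * (q : ℝ) ^ (-(((k : ℝ) + 1) / 2)) * (l : ℝ)⁻¹ := by
    push_cast
    rw [Real.mul_rpow hq0.le hl0.le, Real.mul_rpow ha0.le hl0.le]
    have : (l : ℝ)⁻¹ = (l : ℝ) ^ (-(((k : ℝ) + 1) / 2)) * (l : ℝ) ^ (((k : ℝ) - 1) / 2) := by
      rw [← Real.rpow_add hl0, ← Real.rpow_neg_one]
      congr 1
      ring
    rw [this]
    ring
  have e2 : (((((q * l : ℕ) : ℝ) ^ (-(((k : ℝ) + 1) / 2)) *
      ((a * l : ℕ) : ℝ) ^ (((k : ℝ) - 1) / 2) : ℝ)) : ℂ) =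
      (((a : ℝ) ^ (((k : ℝ) - 1) / 2) * (q : ℝ) ^ (-(((k : ℝ) + 1) / 2)) * (l : ℝ)⁻¹ : ℝ) : ℂ) := by
    rw [e1]
  rw [Complex.ofReal_mul, Complex.ofReal_mul] at e2
  have hl0' : (l : ℂ) ≠ 0 := by exact_mod_cast (by omega : l ≠ 0)
  have e3 : (((l : ℝ)⁻¹ : ℝ) : ℂ) = (l : ℂ)⁻¹ := by push_cast; rfl
  rw [e3] at e2
  calc conj (b (q * l)) * ((((q * l : ℕ) : ℝ) ^ (-(((k : ℝ) + 1) / 2)) : ℝ) : ℂ) *
      (lam (a * l) * ((((a * l : ℕ) : ℝ) ^ (((k : ℝ) - 1) / 2) : ℝ) : ℂ)) =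
      conj (b (q * l)) * lam (a * l) * (((((q * l : ℕ) : ℝ) ^ (-(((k : ℝ) + 1) / 2)) : ℝ) : ℂ) *
        ((((a * l : ℕ) : ℝ) ^ (((k : ℝ) - 1) / 2) : ℝ) : ℂ)) := by ring
    _ = _ := by
      rw [e2]
      ring

end Pool.Agent.Y287.GL
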