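import Pool.Agent.Y287.GL.RydA
import Pool.Agent.Y287.GL.RydB

set_option autoImplicit false

/-! # The dual sum (task RYD of project GD2) -/

namespace Pool.Agent.Y287.GL

open Complex Filter Topology MeasureTheory Set
open scoped ComplexConjugate
open Pool.Agent.H24R2.DZ (ray)
open Pool.Agent.Y671.GL

/-- the terms of the dual sum -/
noncomputable def psi (y : ℕ) (lam b : ℕ → ℂ) (T : ℝ) (q a : ℕ) : ℝ :=
  if 1 ≤ a ∧ a.Coprime q then
    ‖Gq y lam b q a‖ ^ 2 / (a * q) * Real.exp (-(a / (4 * q * T))) else 0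

theorem psi_nonneg (y : ℕ) (lam b : ℕ → ℂ) (T : ℝ) (q a : ℕ) : 0 ≤ psi y lam b T q a := by
  unfold psi
  split_ifs <;> positivity

theorem DS_eq (y : ℕ) (lam b : ℕ → ℂ) (T : ℝ) :
    DS y lam b T = ∑ q ∈ Finset.Icc 1 y, ∑' a : ℕ, psi y lam b T q a := rfl

theorem Gq_bound {k N : ℕ} {ps lam : ℕ → ℂ} (F : Frm k N ps lam) (y : ℕ) (b : ℕ → ℂ) (q : ℕ) :
    ∃ B : ℝ, 0 ≤ B ∧ ∀ a : ℕ, 1 ≤ a → ‖Gq y lam b q a‖ ≤ B * a := by
  obtain ⟨th, C, h0, h1, h⟩ := F.ram
  have hC : 0 < C := by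
    have := h 1 le_rfl
    rw [F.one] at this
    simp at this
    linarith
  refine ⟨∑ l ∈ Finset.Icc 1 (y / q), ‖b (q * l)‖ * C, by positivity, fun a ha => ?_⟩
  unfold Gq
  refine (norm_sum_le _ _).trans ?_
  rw [Finset.sum_mul]
  refine Finset.sum_le_sum fun l hl => ?_
  obtain ⟨hl1, -⟩ := Finset.mem_Icc.1 hl
  have hl1' : (1 : ℝ) ≤ l := by exact_mod_cast hl1
  have ha1' : (1 : ℝ) ≤ a := by exact_mod_cast ha
  rw [norm_div, norm_mul, RCLike.norm_conj, Complex.norm_natCast]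
  have e1 : ‖lam (a * l)‖ ≤ C * (a * l) := by
    refine (h (a * l) (Nat.one_le_iff_ne_zero.2 (Nat.mul_ne_zero (by omega) (by omega)))).trans ?_
    gcongr
    push_cast
    calc ((a : ℝ) * l) ^ th ≤ ((a : ℝ) * l) ^ (1 : ℝ) := by
          refine Real.rpow_le_rpow_of_exponent_le ?_ (by linarith)
          nlinarith
      _ = a * l := Real.rpow_one _
  rw [div_le_iff₀ (by linarith)]
  calc ‖b (q * l)‖ * ‖lam (a * l)‖ ≤ ‖b (q * l)‖ * (C * (a * l)) := by gcongr
    _ = ‖b (q * l)‖ * C * a * l := by ring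

theorem psi_summable {k N : ℕ} {ps lam : ℕ → ℂ} (F : Frm k N ps lam) (y : ℕ) (b : ℕ → ℂ)
    {T : ℝ} (hT : 0 < T) {q : ℕ} (hq : 1 ≤ q) : Summable (psi y lam b T q) := by
  obtain ⟨B, hB, hG⟩ := Gq_bound F y b q
  have hq0 : (1 : ℝ) ≤ q := by exact_mod_cast hq
  refine Summable.of_nonneg_of_le (psi_nonneg y lam b T q) (fun a => ?_)
    ((summable_pow_exp 1 (c := 1 / (4 * q * T)) (by positivity)).mul_left (B ^ 2))
  unfold psi
  split_ifs with h
  · have ha0 : (1 : ℝ) ≤ a := by exact_mod_cast h.1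
    have e1 : ‖Gq y lam b q a‖ ^ 2 / (a * q) ≤ B ^ 2 * (a : ℝ) := by
      rw [div_le_iff₀ (by positivity)]
      calc ‖Gq y lam b q a‖ ^ 2 ≤ (B * a) ^ 2 := by
            gcongr
            exact hG a h.1
        _ = B ^ 2 * a * a * 1 := by ring
        _ ≤ B ^ 2 * a * a * q := by gcongr
        _ = B ^ 2 * a * (a * q) := by ring
    calc ‖Gq y lam b q a‖ ^ 2 / (a * q) * Real.exp (-(a / (4 * q * T))) ≤
        B ^ 2 * (a : ℝ) * Real.exp (-(a / (4 * q * T))) := by gcongr
      _ = B ^ 2 * ((a : ℝ) ^ 1 * Real.exp (-(a * (1 / (4 * q * T))))) := by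
        rw [pow_one, mul_one_div]
        ring
  · positivity

/-- one term of the dual sum -/
theorem term_le {k N : ℕ} {ps lam : ℕ → ℂ} (F : Frm k N ps lam) (y : ℕ) (b : ℕ → ℂ)
    {T : ℝ} (hT : 0 < T) (m : ℕ) :
    ‖dd k y lam b m‖ ^ 2 * (((m : ℝ) / y.factorial) / T)⁻¹ ^ k *
      Real.exp (-((((m : ℝ) / y.factorial) / T) / 4)) ≤
    T ^ k * ∑ q ∈ Finset.Icc 1 y, (if y.factorial / q ∣ m then
      psi y lam b T q (m / (y.factorial / q)) else 0) := by
  have hnn : 0 ≤ T ^ k * ∑ q ∈ Finset.Icc 1 y, (if y.factorial / q ∣ m then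
      psi y lam b T q (m / (y.factorial / q)) else 0) := by
    refine mul_nonneg (by positivity) (Finset.sum_nonneg fun q _ => ?_)
    split_ifs
    · exact psi_nonneg _ _ _ _ _ _
    · exact le_rfl
  by_cases hd : dd k y lam b m = 0
  · rw [hd]
    simpa using hnn
  have hm : m ≠ 0 := by
    rintro rfl
    exact hd (dd_zero F y b)
  have hQ : 0 < y.factorial := Nat.factorial_pos y
  set g := Nat.gcd m y.factorial with hgdef
  have hg0 : 0 < g := Nat.gcd_pos_of_pos_left _ (Nat.pos_of_ne_zero hm)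
  obtain ⟨a, hma⟩ := Nat.gcd_dvd_left m y.factorial
  obtain ⟨q, hQq⟩ := Nat.gcd_dvd_right m y.factorial
  rw [← hgdef] at hma hQq
  have ha : 1 ≤ a := by
    rcases Nat.eq_zero_or_pos a with h0 | h0
    · rw [h0] at hma
      omega
    · exact h0
  have hq : 1 ≤ q := by
    rcases Nat.eq_zero_or_pos q with h0 | h0
    · rw [h0] at hQq
      omega
    · exact h0
  have hco : a.Coprime q := by
    have := Nat.gcd_mul_left g a q
    rw [← hma, ← hQq, ← hgdef] at this
    exact Nat.eq_of_mul_eq_mul_left hg0 (by rw [← this, mul_one])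
  have hQg : y.factorial = q * g := by rw [hQq]; ring
  have hmg : m = a * g := by rw [hma]; ring
  have hformula := dd_eq F y b hq ha hco hQg
  rw [← hmg] at hformula
  -- q ≤ y since otherwise the coefficient vanishes
  have hqy : q ≤ y := by
    by_contra hcon
    have hG : Gq y lam b q a = 0 := by
      unfold Gq
      rw [Nat.div_eq_of_lt (by omega)]
      simp
    rw [hG] at hformula
    simp at hformula
    exact hd hformula
  have hqm : q ∈ Finset.Icc 1 y := Finset.mem_Icc.2 ⟨hq, hqy⟩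
  have hdivq : y.factorial / q = g := by rw [hQg]; exact Nat.mul_div_cancel_left g (by omega)
  have hdivm : m / g = a := by rw [hmg]; exact Nat.mul_div_cancel a hg0
  have hsingle : psi y lam b T q a ≤ ∑ q ∈ Finset.Icc 1 y, (if y.factorial / q ∣ m then
      psi y lam b T q (m / (y.factorial / q)) else 0) := by
    have := Finset.single_le_sum (f := fun q => (if y.factorial / q ∣ m then
      psi y lam b T q (m / (y.factorial / q)) else 0)) (s := Finset.Icc 1 y) (fun i _ => by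
        split_ifs
        · exact psi_nonneg _ _ _ _ _ _
        · exact le_rfl) hqm
    rw [hdivq, if_pos ⟨a, hma⟩, hdivm] at this
    exact this
  refine le_trans (le_of_eq ?_) (mul_le_mul_of_nonneg_left hsingle (by positivity))
  have ha0 : (0 : ℝ) < a := by exact_mod_cast ha
  have hq0 : (0 : ℝ) < q := by exact_mod_cast hq
  have hg0' : (0 : ℝ) < g := by exact_mod_cast hg0
  have hw : ((m : ℝ) / y.factorial) / T = a / (q * T) := by
    rw [hQg, hmg]
    push_cast
    field_simp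
  rw [hw, hformula, norm_mul, RCLike.norm_conj, Complex.norm_real, Real.norm_eq_abs,
    abs_of_nonneg (by positivity)]
  unfold psi
  rw [if_pos ⟨ha, hco⟩]
  have e1 : ((a : ℝ) ^ (((k : ℝ) - 1) / 2)) ^ 2 = (a : ℝ) ^ k / a := by
    rw [← Real.rpow_natCast, ← Real.rpow_mul ha0.le]
    have : ((k : ℝ) - 1) / 2 * ((2 : ℕ) : ℝ) = (k : ℝ) - 1 := by push_cast; ring
    rw [this, Real.rpow_sub_one ha0.ne', Real.rpow_natCast]
  have e2 : ((q : ℝ) ^ (-(((k : ℝ) + 1) / 2))) ^ 2 = 1 / ((q : ℝ) ^ k * q) := by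
    rw [← Real.rpow_natCast, ← Real.rpow_mul hq0.le]
    have : -(((k : ℝ) + 1) / 2) * ((2 : ℕ) : ℝ) = -((k : ℝ) + 1) := by push_cast; ring
    rw [this, Real.rpow_neg hq0.le, Real.rpow_add_one hq0.ne', Real.rpow_natCast, one_div]
  have e3 : (a : ℝ) / (q * T) / 4 = a / (4 * q * T) := by field_simp
  rw [mul_pow, mul_pow, e1, e2, e3, inv_div, div_pow, mul_pow]
  field_simp

/-- summing over `m` -/
theorem tsum_term_le {k N : ℕ} {ps lam : ℕ → ℂ} (F : Frm k N ps lam) (y : ℕ) (b : ℕ → ℂ)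
    {T : ℝ} (hT : 0 < T) :
    Summable (fun m : ℕ => T ^ k * ∑ q ∈ Finset.Icc 1 y, (if y.factorial / q ∣ m then
      psi y lam b T q (m / (y.factorial / q)) else 0)) ∧
    ∑' m : ℕ, (T ^ k * ∑ q ∈ Finset.Icc 1 y, (if y.factorial / q ∣ m then
      psi y lam b T q (m / (y.factorial / q)) else 0)) = T ^ k * DS y lam b T := by
  have hQ : 0 < y.factorial := Nat.factorial_pos y
  have key : ∀ q ∈ Finset.Icc 1 y, HasSum (fun m : ℕ => (if y.factorial / q ∣ m then
      psi y lam b T q (m / (y.factorial / q)) else 0)) (∑' a : ℕ, psi y lam b T q a) := by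
    intro q hq
    obtain ⟨h1, h2⟩ := Finset.mem_Icc.1 hq
    obtain ⟨r, hr⟩ := Nat.dvd_factorial (by omega : 0 < q) h2
    have hr0 : 0 < r := by
      rcases Nat.eq_zero_or_pos r with h0 | h0
      · rw [h0, mul_zero] at hr
        omega
      · exact h0
    have hdiv : y.factorial / q = r := by rw [hr]; exact Nat.mul_div_cancel_left r (by omega)
    rw [hdiv]
    have hinj : Function.Injective fun n : ℕ => r * n := fun a c hac =>
      Nat.eq_of_mul_eq_mul_left hr0 hac
    have := (hinj.hasSum_iff (f := fun m : ℕ => (if r ∣ m then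
      psi y lam b T q (m / r) else 0)) (a := ∑' a : ℕ, psi y lam b T q a) ?_).1 ?_
    · exact this
    · intro m hm
      have : ¬ r ∣ m := by
        rintro ⟨n, rfl⟩
        exact hm ⟨n, rfl⟩
      simp [this]
    · have e : ((fun m : ℕ => (if r ∣ m then psi y lam b T q (m / r) else 0)) ∘
          fun n : ℕ => r * n) = psi y lam b T q := by
        funext n
        simp [Nat.mul_div_cancel_left n hr0]
      rw [e]
      exact (psi_summable F y b hT h1).hasSum
  have hs := (hasSum_sum key).mul_left (T ^ k)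
  exact ⟨hs.summable, by rw [hs.tsum_eq, DS_eq]⟩

end Pool.Agent.Y287.GL
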